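import Pool.Agent.L0h7.SS.Stm

/-!
# SS: PUSH and TBL
-/

set_option autoImplicit false

open CategoryTheory

noncomputable section

namespace Pool.Agent.L0h26.SS

open Pool.Agent.Y75.NK Pool.Agent.L0h7.KN Pool.Agent.L0h7.SS MonoidAlgebra

theorem exists_Phi : ∀ (m : ℕ) (G P : GrpCat.{0}) (T : Set G) (φ : G → P) (π : P ⟶ G),
    (∀ a ∈ T, ∀ b ∈ T, φ (a * b) = φ a * φ b) → (∀ t ∈ T, π.hom (φ t) = t) →
    ∃ Φ : (EF m).obj G → (EF m).obj P,
      (∀ z, prj m G z ∈ T → ∀ w, prj m G w ∈ T → Φ (z * w) = Φ z * Φ w) ∧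
      ∀ z, prj m G z ∈ T → ((EF m).map π).hom (Φ z) = z
  | 0, G, P, T, φ, π, h1, h2 => ⟨φ, fun z hz w hw => h1 z hz w hw, fun z hz => h2 z hz⟩
  | m + 1, G, P, T, φ, π, h1, h2 => by
    obtain ⟨Φ, h3, h4⟩ := exists_Phi m (tz.obj G) (tz.obj P) {x | x.2 ∈ T}
      (fun x => (x.1, φ x.2)) (tz.map π)
      (fun a ha b hb => Prod.ext rfl (h1 a.2 ha b.2 hb))
      (fun t ht => Prod.ext rfl (h2 t.2 ht))
    exact ⟨Φ, fun z hz w hw => h3 z hz w hw, fun z hz => h4 z hz⟩

lemma mapDomain_mul_on {R : Type} [Ring R] {E E' : Type} [Mul E] [Mul E'] (f : E → E')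
    (A : Set E) (hf : ∀ a ∈ A, ∀ b ∈ A, f (a * b) = f a * f b) (x y : MonoidAlgebra R E)
    (hx : ∀ z ∈ x.coeff.support, z ∈ A) (hy : ∀ z ∈ y.coeff.support, z ∈ A) :
    mapDomain f (x * y) = mapDomain f x * mapDomain f y := by
  have h1 : mapDomain f (x * y) = x.coeff.sum fun a b => y.coeff.sum fun a' b' =>
      single (f (a * a')) (b * b') := by
    rw [mul_def, mapDomain_sum]
    refine Finsupp.sum_congr fun a _ => ?_
    rw [mapDomain_sum]
    refine Finsupp.sum_congr fun b _ => ?_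
    rw [mapDomain_single]
  have h2 : mapDomain f x * mapDomain f y = x.coeff.sum fun a b => y.coeff.sum fun a' b' =>
      single (f a * f a') (b * b') := by
    rw [mul_def]
    simp [mapDomain, Finsupp.sum_mapDomain_index, add_mul, mul_add]
  rw [h1, h2]
  refine Finsupp.sum_congr fun a ha => Finsupp.sum_congr fun b hb => ?_
  rw [hf a (hx a ha) b (hy b hb)]

lemma mapDomain_sum' {R : Type} [Ring R] {E E' : Type} (f : E → E') {ι : Type} (s : Finset ι)
    (x : ι → MonoidAlgebra R E) : mapDomain f (∑ i ∈ s, x i) = ∑ i ∈ s, mapDomain f (x i) := by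
  classical
  induction s using Finset.induction_on with
  | empty => simp
  | insert a s ha ih => rw [Finset.sum_insert ha, Finset.sum_insert ha, mapDomain_add, ih]

lemma mapDomain_back {R : Type} [Ring R] {E E' : Type} [Monoid E] [Monoid E'] (f : E → E')
    (g : E' →* E) (x : MonoidAlgebra R E) (h : ∀ z ∈ x.coeff.support, g (f z) = z) :
    MonoidAlgebra.mapDomainRingHom R g (mapDomain f x) = x := by
  apply MonoidAlgebra.coeff_injective
  change Finsupp.mapDomain g (Finsupp.mapDomain f x.coeff) = x.coeff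
  rw [← Finsupp.mapDomain_comp]
  refine (Finsupp.mapDomain_congr (g := id) fun z hz => ?_).trans Finsupp.mapDomain_id
  exact h z hz

theorem t_PUSH : S_PUSH := by
  intro R _ m G P T φ π h1 h2 e he
  obtain ⟨Φ, h3, h4⟩ := exists_Phi m G P T φ π h1 h2
  have hi : (e.e.map (mapDomain Φ)) * (e.e.map (mapDomain Φ)) = e.e.map (mapDomain Φ) := by
    refine Matrix.ext fun i j => ?_
    rw [Matrix.mul_apply, Matrix.map_apply]
    have h5 := congrFun (congrFun e.idem i) j
    rw [Matrix.mul_apply] at h5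
    conv_rhs => rw [← h5]
    rw [mapDomain_sum']
    refine Finset.sum_congr rfl fun k _ => ?_
    rw [Matrix.map_apply, Matrix.map_apply]
    exact (mapDomain_mul_on Φ {z | prj m G z ∈ T} (fun a ha b hb => h3 a ha b hb) _ _
      (he i k) (he k j)).symm
  refine ⟨kclass R m P ⟨e.n, e.e.map (mapDomain Φ), hi⟩, ?_⟩
  rw [← Pool.Agent.L0h6.KN.kclass_nat]
  congr 1
  obtain ⟨n, M, hM⟩ := e
  unfold Idem.map
  congr 1
  refine Matrix.ext fun i j => ?_
  exact mapDomain_back Φ ((EF m).map π).hom (M i j) fun z hz => h4 z (he i j z hz)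

theorem t_TBL : S_TBL := by
  intro hP R _ m G T h1 e he
  classical
  -- the map
  have hex : ∀ g : G, ∃ p : Tbl T, ∀ a b : T, (a : G) * b = g →
      p = ((FreeGroup.of a * FreeGroup.of b : FreeGroup T) : Tbl T) := by
    intro g
    by_cases hg : ∃ a b : T, (a : G) * b = g
    · obtain ⟨a, b, hab⟩ := hg
      refine ⟨((FreeGroup.of a * FreeGroup.of b : FreeGroup T) : Tbl T), fun c d hcd => ?_⟩
      rw [← mul_inv_eq_one]
      refine (QuotientGroup.eq_one_iff (N := Subgroup.normalClosure (tblRels T))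
        (FreeGroup.of a * FreeGroup.of b * (FreeGroup.of c * FreeGroup.of d)⁻¹)).2 ?_
      exact Subgroup.subset_normalClosure (Or.inl ⟨a, b, c, d, hab.trans hcd.symm, rfl⟩)
    · exact ⟨1, fun a b hab => absurd ⟨a, b, hab⟩ hg⟩
  choose φ hφ using hex
  have hone : ((FreeGroup.of ⟨1, h1⟩ : FreeGroup T) : Tbl T) = 1 :=
    (QuotientGroup.eq_one_iff (N := Subgroup.normalClosure (tblRels T)) _).2
      (Subgroup.subset_normalClosure (Or.inr ⟨⟨1, h1⟩, rfl, rfl⟩))
  have hφt : ∀ t : T, φ t = ((FreeGroup.of t : FreeGroup T) : Tbl T) := by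
    intro t
    rw [hφ t t ⟨1, h1⟩ (mul_one _)]
    rw [QuotientGroup.mk_mul]
    rw [hone, mul_one]
  refine hP R m G (Tbl T) T φ (tblMap T) (fun a ha b hb => ?_) (fun t ht => ?_) e he
  · rw [hφ (a * b) ⟨a, ha⟩ ⟨b, hb⟩ rfl, hφt ⟨a, ha⟩, hφt ⟨b, hb⟩]
    rfl
  · rw [hφt ⟨t, ht⟩]
    change (FreeGroup.lift (fun t : T => (t : G))) (FreeGroup.of ⟨t, ht⟩) = t
    simp

end Pool.Agent.L0h26.SS
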